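import Pool.Agent.Helper44.GH.Stmts

/-!
# Module RLZ: the limit `ρ → 1` with `ρ ≤ 1 + θ`
-/

open Finset MeasureTheory Filter Topology

namespace Pool.Agent.Helper44.GH

open Pool.Agent.Helper44.GF Pool.Agent.Helper44.GN

theorem rlz_zpow {L : ℝ → ℝ} {ρ α : ℝ} (hρ : 1 < ρ)
    (hsc : ∀ u, 0 ≤ u → L (ρ * u) = ρ ^ α * L u) (h1 : L 1 = 1) (j : ℤ) :
    L (ρ ^ j) = (ρ ^ j) ^ α := by
  have hρ0 : (0 : ℝ) < ρ := by linarith
  have hpos : (0 : ℝ) < ρ ^ α := Real.rpow_pos_of_pos hρ0 _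
  induction j using Int.induction_on with
  | zero => simp [h1]
  | succ i ih =>
    have hz : (0 : ℝ) < ρ ^ (i : ℤ) := zpow_pos hρ0 _
    have e : ρ ^ ((i : ℤ) + 1) = ρ * ρ ^ (i : ℤ) := by
      rw [zpow_add_one₀ hρ0.ne']; ring
    rw [e, hsc _ hz.le, ih, Real.mul_rpow hρ0.le hz.le]
  | pred i ih =>
    have hz : (0 : ℝ) < ρ ^ (-(i : ℤ) - 1) := zpow_pos hρ0 _
    have e : ρ ^ (-(i : ℤ)) = ρ * ρ ^ (-(i : ℤ) - 1) := by
      have := zpow_add_one₀ hρ0.ne' (-(i : ℤ) - 1)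
      rw [sub_add_cancel] at this
      rw [this]; ring
    rw [e, hsc _ hz.le, Real.mul_rpow hρ0.le hz.le] at ih
    exact mul_left_cancel₀ hpos.ne' ih

theorem rlz_bd {L : ℝ → ℝ} {ρ α : ℝ} (hρ : 1 < ρ) (hα : 0 < α)
    (hsc : ∀ u, 0 ≤ u → L (ρ * u) = ρ ^ α * L u) (h1 : L 1 = 1)
    (hmono : ∀ u v, 0 ≤ u → u ≤ v → L u ≤ L v) {u : ℝ} (hu : 0 < u) :
    ρ ^ (-α) * u ^ α ≤ L u ∧ L u ≤ ρ ^ α * u ^ α := by
  have hρ0 : (0 : ℝ) < ρ := by linarith
  obtain ⟨j, hj1, hj2⟩ := exists_mem_Ico_zpow hu hρ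
  have hz : (0 : ℝ) < ρ ^ j := zpow_pos hρ0 _
  have hz1 : (0 : ℝ) < ρ ^ (j + 1) := zpow_pos hρ0 _
  have e : ρ ^ (j + 1) = ρ * ρ ^ j := by rw [zpow_add_one₀ hρ0.ne']; ring
  constructor
  · have h2 : L (ρ ^ j) ≤ L u := hmono _ _ hz.le hj1
    rw [rlz_zpow hρ hsc h1] at h2
    refine le_trans ?_ h2
    rw [Real.rpow_neg hρ0.le, inv_mul_le_iff₀ (Real.rpow_pos_of_pos hρ0 _),
      ← Real.mul_rpow hρ0.le hz.le]
    exact Real.rpow_le_rpow hu.le (by rw [← e]; exact hj2.le) hα.le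
  · have h2 : L u ≤ L (ρ ^ (j + 1)) := hmono _ _ hu.le hj2.le
    rw [rlz_zpow hρ hsc h1] at h2
    refine le_trans h2 ?_
    rw [← Real.mul_rpow hρ0.le hu.le]
    refine Real.rpow_le_rpow hz1.le ?_ hα.le
    rw [e]
    exact mul_le_mul_of_nonneg_left hj1 hρ0.le

theorem rlz_lin (ρ ε c u : ℝ) : Lr ρ ε c u = c * Lr ρ ε 1 u := by
  unfold Lr
  rw [← tsum_mul_left]
  refine tsum_congr fun l => ?_
  ring

theorem st_RLZ (hLR : Pool.Agent.Helper44.GF.ST_LR) : ST_RLZ := by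
  intro ε θ hε hε2 hθ
  have hε1 : ε < 1 := by linarith
  have hα : (0 : ℝ) < 1 - ε := by linarith
  obtain ⟨K0, hK0⟩ := exists_nat_ge (1 / θ)
  set K : ℝ := (K0 : ℝ) + 15 with hK
  have hK15 : (15 : ℝ) ≤ K := by
    have : (0 : ℝ) ≤ K0 := Nat.cast_nonneg K0
    rw [hK]; linarith
  have hKθ : 1 / K ≤ θ := by
    rw [div_le_iff₀ (by linarith)]
    rw [div_le_iff₀ hθ] at hK0
    have : (0 : ℝ) < 15 * θ := by positivity
    rw [hK]; nlinarith
  set ρ : ℕ → ℝ := fun k => 1 + 1 / ((k : ℝ) + K) with hρdef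
  have hρ : ∀ k, 1 < ρ k := by
    intro k
    have : (0 : ℝ) < 1 / ((k : ℝ) + K) := by positivity
    simp only [hρdef]; linarith
  have hρK : ∀ k, ρ k ≤ 1 + 1 / K := by
    intro k
    have hk : (0 : ℝ) ≤ k := Nat.cast_nonneg k
    have : (1 : ℝ) / ((k : ℝ) + K) ≤ 1 / K :=
      one_div_le_one_div_of_le (by linarith) (by linarith)
    simp only [hρdef]; linarith
  have hρ16 : ∀ k, ρ k ≤ 16 / 15 := by
    intro k
    have h1 := hρK k
    have : (1 : ℝ) / K ≤ 1 / 15 := one_div_le_one_div_of_le (by norm_num) hK15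
    linarith
  have hL1 : ∀ k, 0 < Lr (ρ k) ε 1 1 := fun k => (hLR (ρ k) ε 1 (hρ k) hε hε1 one_pos).2.2.2.2.1
  set c : ℕ → ℝ := fun k => 1 / Lr (ρ k) ε 1 1 with hcdef
  have hc : ∀ k, 0 < c k := fun k => by simp only [hcdef]; exact one_div_pos.mpr (hL1 k)
  have hone : ∀ k, Lr (ρ k) ε (c k) 1 = 1 := by
    intro k
    rw [rlz_lin]
    simp only [hcdef]
    exact one_div_mul_cancel (hL1 k).ne'
  have hbd : ∀ k u, 0 < u → (ρ k) ^ (-(1 - ε)) * u ^ (1 - ε) ≤ Lr (ρ k) ε (c k) u ∧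
      Lr (ρ k) ε (c k) u ≤ (ρ k) ^ (1 - ε) * u ^ (1 - ε) := by
    intro k u hu
    obtain ⟨_, _, hm, hs, _, _⟩ := hLR (ρ k) ε (c k) (hρ k) hε hε1 (hc k)
    exact rlz_bd (hρ k) hα hs (hone k) hm hu
  have hzero : ∀ k, Lr (ρ k) ε (c k) 0 = 0 := fun k =>
    (hLR (ρ k) ε (c k) (hρ k) hε hε1 (hc k)).2.2.2.2.2
  refine ⟨ρ, c, 15 / 16, 15 / 16, by norm_num, hρ, fun k => (hρK k).trans (by linarith), hc,
    fun k => (hLR (ρ k) ε (c k) (hρ k) hε hε1 (hc k)).2.1, ?_, ?_⟩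
  · intro k u hu
    have hρ0 : (0 : ℝ) < ρ k := by linarith [hρ k]
    rcases hu.eq_or_lt with h0 | hu0
    · rw [← h0, hzero]; simp; norm_num
    · refine le_trans ?_ (hbd k u hu0).1
      have h1 : (15 : ℝ) / 16 ≤ (ρ k) ^ (-(1 - ε)) := by
        have h2 : (ρ k) ^ (-1 : ℝ) ≤ (ρ k) ^ (-(1 - ε)) :=
          Real.rpow_le_rpow_of_exponent_le (hρ k).le (by linarith)
        have h3 : (15 : ℝ) / 16 ≤ (ρ k) ^ (-1 : ℝ) := by
          rw [Real.rpow_neg_one]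
          rw [le_inv_comm₀ (by norm_num) hρ0]
          have := hρ16 k
          norm_num
          linarith
        linarith
      have h4 : Real.sqrt u - 1 ≤ u ^ (1 - ε) := by
        rcases le_total 1 u with h | h
        · have : Real.sqrt u ≤ u ^ (1 - ε) := by
            rw [Real.sqrt_eq_rpow]
            exact Real.rpow_le_rpow_of_exponent_le h (by linarith)
          linarith
        · have h5 : Real.sqrt u ≤ 1 := Real.sqrt_le_one.mpr h
          have h6 : 0 ≤ u ^ (1 - ε) := Real.rpow_nonneg hu _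
          linarith
      have h6 : 0 ≤ u ^ (1 - ε) := Real.rpow_nonneg hu _
      nlinarith [mul_le_mul_of_nonneg_right h1 h6]
  · intro u hu
    rcases hu.eq_or_lt with h0 | hu0
    · rw [← h0]
      have : (0 : ℝ) ^ (1 - ε) = 0 := Real.zero_rpow hα.ne'
      rw [this]
      simp only [hzero]
      exact tendsto_const_nhds
    · have hlim : Tendsto ρ atTop (𝓝 1) := by
        have h1 : Tendsto (fun k : ℕ => 1 / ((k : ℝ) + K)) atTop (𝓝 0) := by
          have := tendsto_inv_atTop_zero.comp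
            (tendsto_atTop_add_const_right atTop K (tendsto_natCast_atTop_atTop (R := ℝ)))
          simpa [Function.comp_def, one_div] using this
        have h2 := h1.const_add 1
        simpa [hρdef] using h2
      have hp : ∀ β : ℝ, Tendsto (fun k => (ρ k) ^ β * u ^ (1 - ε)) atTop (𝓝 (u ^ (1 - ε))) := by
        intro β
        have h1 : Tendsto (fun k => (ρ k) ^ β) atTop (𝓝 ((1 : ℝ) ^ β)) :=
          hlim.rpow_const (Or.inl one_ne_zero)
        have h2 := h1.mul_const (u ^ (1 - ε))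
        rwa [Real.one_rpow, one_mul] at h2
      exact tendsto_of_tendsto_of_tendsto_of_le_of_le (hp _) (hp _)
        (fun k => (hbd k u hu0).1) (fun k => (hbd k u hu0).2)

end Pool.Agent.Helper44.GH
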